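import Mathlib
import Pool.Agent.H653R2.ProjAlg

set_option autoImplicit false

namespace Pool.Agent.Results.MP_3db952_lc.NoUniversal

open Set Pool.Agent.H653R2.ProjAlg

/-- There is no countable projective algebra (of plane sets) `U` such that every countable
projective algebra is isomorphic to a subalgebra of `U`. -/
theorem result :
    ¬ ∃ U : Set (Set Plane), IsProjAlg U ∧ U.Countable ∧
      ∀ F : Set (Set Plane), IsProjAlg F → F.Countable →
        ∃ V : Set (Set Plane), V ⊆ U ∧ IsProjAlg V ∧ Isomorphic F V := by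
  rintro ⟨U, hU, hUc, h⟩
  have h1 : ∀ T : Set ℕ, ∃ R ∈ U, decode R = T := by
    intro T
    have hF := gen_isProjAlg {code T}
    obtain ⟨V, hVU, hV, φ, hφ⟩ := h (gen {code T}) hF (gen_countable (countable_singleton _))
    have hm : code T ∈ gen {code T} := subset_gen _ (mem_singleton _)
    exact ⟨φ (code T), hVU (hφ.bij.mapsTo hm), decode_eq hφ hF T hm⟩
  choose R hRU hR using h1
  have hinj : Function.Injective (fun T : Set ℕ => (⟨R T, hRU T⟩ : U)) := by
    intro T T' hTT
    have h2 : R T = R T' := congrArg Subtype.val hTT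
    rw [← hR T, ← hR T', h2]
  have : Countable U := hUc.to_subtype
  have h3 : Countable (Set ℕ) := hinj.countable
  have h4 : Cardinal.mk (Set ℕ) ≤ Cardinal.aleph0 := Cardinal.mk_le_aleph0_iff.2 h3
  rw [Cardinal.mk_set, Cardinal.mk_nat] at h4
  exact absurd h4 (not_le.2 (Cardinal.cantor _))

end Pool.Agent.Results.MP_3db952_lc.NoUniversal
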